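import Mathlib

set_option autoImplicit false

/-!
# Infinitely many exceptional tuples for `z ^ 2 + t`

Let `U 0 = 0`, `U 1 = 1`, `U (k + 2) = U (k + 1) - t U k` in `K[t]`, and `x k = - t U k / U (k + 1)`. Then
`x ^ 2 + x + t = t ^ (k + 1) / U (k + 1) ^ 2` for `x = x k`. A point `v` has portrait `(1, 1)` for
`z ^ 2 + c` only if `v ^ 2 + v + c = 0` and `v` is not fixed; for `v = x (c)` this forces `c = 0` and
`v = 0`, which is a fixed point. Hence `(x k, 1, 1, 2)` is exceptional for every `k ≥ 1`. For `k = 1` this is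
the tuple `(-t, 1, 1, 2)`, for `k = 2` it is `(t / (t - 1), 1, 1, 2)`. (The `- x k` are Padé approximants
at `t = 0` of the fixed point `(1 - √(1 - 4 t)) / 2`.)
-/

namespace Pool.Agent.Results.MP_13ba09_nt.InfinitelyMany

open Polynomial

/-- `y` has portrait `(M, N)` for `g`: the point `g^M(y)` is periodic of exact period `N ≥ 1`, and `M` is
minimal such that `g^M(y)` is periodic. -/
def HasPortrait {α : Type*} (g : α → α) (y : α) (M N : ℕ) : Prop :=
  1 ≤ N ∧ Function.minimalPeriod g (g^[M] y) = N ∧ ∀ m < M, g^[m] y ∉ Function.periodicPts g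

/-- The map `z ↦ z ^ d + c` on the projective line `K ∪ {∞}`. -/
def phi {K : Type*} [Field K] (d : ℕ) (c : K) : OnePoint K → OnePoint K :=
  OnePoint.map fun z => z ^ d + c

open Classical in
/-- The reduction of `x ∈ K(t)` at the place `t = c`: the value `x(c)`, or `∞` if `x` has a pole at `c`. -/
noncomputable def red {K : Type*} [Field K] (x : RatFunc K) (c : K) : OnePoint K :=
  if x.denom.eval c = 0 then OnePoint.infty
  else ((x.num.eval c / x.denom.eval c : K) : OnePoint K)

/-- The tuple `(x, M, N, d)` is exceptional. -/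
def Exceptional {K : Type*} [Field K] (x : RatFunc K) (M N d : ℕ) : Prop :=
  (∀ a : K, x ≠ RatFunc.C a) ∧ 1 ≤ N ∧ 2 ≤ d ∧ ∀ c : K, ¬ HasPortrait (phi d c) (red x c) M N

section

variable {K : Type*} [Field K]

/-- The Lucas polynomials. -/
noncomputable def U : ℕ → K[X]
  | 0 => 0
  | 1 => 1
  | k + 2 => U (k + 1) - X * U k

theorem cassini (k : ℕ) :
    X * (U k : K[X]) ^ 2 - U k * U (k + 1) + U (k + 1) ^ 2 = X ^ k := by
  induction k with
  | zero => simp [U]
  | succ k ih =>
    simp only [U]
    linear_combination X * ih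

theorem eval_zero (k : ℕ) : (U (k + 1) : K[X]).eval 0 = 1 := by
  induction k with
  | zero => simp [U]
  | succ k ih => simpa [U] using ih

theorem ne_zero (k : ℕ) : (U (k + 1) : K[X]) ≠ 0 := by
  intro h
  have := eval_zero (K := K) k
  simp [h] at this

/-- The rational functions `x k = - t U k / U (k + 1)`. -/
noncomputable def xk (k : ℕ) : RatFunc K :=
  - (algebraMap K[X] (RatFunc K) (X * U k)) / algebraMap K[X] (RatFunc K) (U (k + 1))

theorem map_ne_zero' {p : K[X]} (hp : p ≠ 0) : algebraMap K[X] (RatFunc K) p ≠ 0 := by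
  simpa using hp

theorem xk_mul (k : ℕ) : xk k * algebraMap K[X] (RatFunc K) (U (k + 1)) =
    - algebraMap K[X] (RatFunc K) (X * U k) := by
  unfold xk
  rw [div_mul_cancel₀ _ (map_ne_zero' (ne_zero k))]

theorem xk_sq (k : ℕ) : (xk k ^ 2 + xk k + algebraMap K[X] (RatFunc K) X) *
    algebraMap K[X] (RatFunc K) (U (k + 1)) ^ 2 = algebraMap K[X] (RatFunc K) X ^ (k + 1) := by
  have h1 := xk_mul (K := K) k
  have h2 : algebraMap K[X] (RatFunc K) X * (algebraMap K[X] (RatFunc K) (U k)) ^ 2 -
      algebraMap K[X] (RatFunc K) (U k) * algebraMap K[X] (RatFunc K) (U (k + 1)) +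
      algebraMap K[X] (RatFunc K) (U (k + 1)) ^ 2 = algebraMap K[X] (RatFunc K) X ^ k := by
    rw [← map_pow, ← map_pow, ← map_pow, ← cassini k]
    simp only [map_add, map_sub, map_mul, map_pow]
  rw [map_mul] at h1
  rw [pow_succ]
  linear_combination (xk k * algebraMap K[X] (RatFunc K) (U (k + 1)) -
    algebraMap K[X] (RatFunc K) X * algebraMap K[X] (RatFunc K) (U k) +
    algebraMap K[X] (RatFunc K) (U (k + 1))) * h1 + algebraMap K[X] (RatFunc K) X * h2

theorem xk_ne_C (k : ℕ) (hk : 1 ≤ k) (a : K) : xk k ≠ RatFunc.C a := by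
  intro h
  have h1 := xk_sq (K := K) k
  rw [h, ← RatFunc.algebraMap_C] at h1
  have h2 : ((C a ^ 2 + C a + X) * U (k + 1) ^ 2 : K[X]) = X ^ (k + 1) := by
    apply RatFunc.algebraMap_injective K
    simp only [map_add, map_mul, map_pow]
    exact h1
  have h3 : a ^ 2 + a = 0 := by
    have := congrArg (Polynomial.eval 0) h2
    simpa [eval_zero] using this
  have h4 : (C a ^ 2 + C a : K[X]) = 0 := by
    rw [← C_pow, ← C_add, h3, C_0]
  rw [h4, zero_add, pow_succ' X k] at h2
  have h5 := mul_left_cancel₀ X_ne_zero h2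
  have h6 := congrArg (Polynomial.eval 0) h5
  rw [eval_pow, eval_zero, eval_pow, eval_X, zero_pow (by omega)] at h6
  simp at h6

theorem xk_aux (j k : ℕ) (hjk : j < k) : (xk j : RatFunc K) ≠ xk k := by
  intro h
  have h1 := xk_sq (K := K) j
  have h2 := xk_sq (K := K) k
  rw [h] at h1
  have h3 : (X ^ (j + 1) * U (k + 1) ^ 2 : K[X]) = X ^ (k + 1) * U (j + 1) ^ 2 := by
    apply RatFunc.algebraMap_injective K
    simp only [map_mul, map_pow]
    rw [← h1, ← h2]
    ring
  have h4 : (X ^ (k + 1) : K[X]) = X ^ (j + 1) * X ^ (k - j) := by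
    rw [← pow_add]; congr 1; omega
  rw [h4, mul_assoc] at h3
  have h5 := mul_left_cancel₀ (pow_ne_zero _ X_ne_zero) h3
  have h6 := congrArg (Polynomial.eval 0) h5
  rw [eval_pow, eval_zero, eval_mul, eval_pow, eval_X, zero_pow (by omega)] at h6
  simp at h6

theorem xk_exceptional (k : ℕ) (hk : 1 ≤ k) : Exceptional (xk k : RatFunc K) 1 1 2 := by
  refine ⟨xk_ne_C k hk, le_rfl, le_rfl, ?_⟩
  rintro c ⟨-, h1, h2⟩
  have h3 := h2 0 one_pos
  rw [Function.iterate_zero, id] at h3
  rw [Function.iterate_one] at h1
  by_cases hd : ((xk k : RatFunc K).denom).eval c = 0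
  · apply h3
    rw [red, if_pos hd]
    exact Function.mk_mem_periodicPts (n := 1) one_pos rfl
  · rw [red, if_neg hd] at h1 h3
    set v : K := (xk k : RatFunc K).num.eval c / (xk k : RatFunc K).denom.eval c with hv
    have hnf : v ^ 2 + c ≠ v := by
      intro h
      apply h3
      refine Function.mk_mem_periodicPts (n := 1) one_pos ?_
      change phi 2 c v = v
      rw [phi, OnePoint.map_some, h]
    have h4 : phi 2 c (phi 2 c (v : OnePoint K)) = phi 2 c v := by
      have := Function.isPeriodicPt_minimalPeriod (phi 2 c) (phi 2 c (v : OnePoint K))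
      rw [h1] at this
      exact this
    rw [phi, OnePoint.map_some, OnePoint.map_some, OnePoint.coe_eq_coe] at h4
    have h5 : (v ^ 2 + c - v) * (v ^ 2 + v + c) = 0 := by linear_combination h4
    have h6 : v ^ 2 + v + c = 0 := by
      rcases mul_eq_zero.1 h5 with h | h
      · exact absurd (sub_eq_zero.1 h) hnf
      · exact h
    -- polynomial identities for numerator and denominator
    set n := (xk k : RatFunc K).num
    set d := (xk k : RatFunc K).denom
    have hd0 : d ≠ 0 := RatFunc.denom_ne_zero _
    have hx : (xk k : RatFunc K) * algebraMap K[X] (RatFunc K) d = algebraMap K[X] (RatFunc K) n := by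
      have := RatFunc.num_div_denom (xk k : RatFunc K)
      rw [← this, div_mul_cancel₀ _ (map_ne_zero' hd0)]
    have e1 : n * U (k + 1) = - (X * U k) * d := by
      apply RatFunc.algebraMap_injective K
      rw [map_mul, map_mul, map_neg, ← hx, ← xk_mul]
      ring
    have e2 : (n ^ 2 + n * d + X * d ^ 2) * U (k + 1) ^ 2 = X ^ (k + 1) * d ^ 2 := by
      apply RatFunc.algebraMap_injective K
      simp only [map_mul, map_add, map_pow]
      rw [← hx, ← xk_sq]
      ring
    have f2 := congrArg (Polynomial.eval c) e2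
    simp only [eval_mul, eval_add, eval_pow, eval_X] at f2
    have hn : n.eval c = v * d.eval c := by rw [hv, div_mul_cancel₀ _ hd]
    rw [hn] at f2
    have h7 : c ^ (k + 1) * d.eval c ^ 2 = 0 := by
      rw [← f2]
      linear_combination (d.eval c ^ 2 * (U (k + 1)).eval c ^ 2) * h6
    have hc : c = 0 := by
      rcases mul_eq_zero.1 h7 with h | h
      · exact pow_eq_zero_iff (by omega) |>.1 h
      · exact absurd (pow_eq_zero_iff (by norm_num) |>.1 h) hd
    have f1 := congrArg (Polynomial.eval c) e1
    simp only [eval_mul, eval_neg, eval_X] at f1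
    rw [hn, hc, eval_zero] at f1
    have hv0 : v = 0 := by
      have h8 : v * d.eval 0 = 0 := by linear_combination f1
      rw [hc] at hd
      rcases mul_eq_zero.1 h8 with h | h
      · exact h
      · exact absurd h hd
    apply hnf
    rw [hv0, hc]
    ring

end

/-- **Infinitely many exceptional tuples.** For every field `K` (in particular for every algebraically
closed field of characteristic zero) there are infinitely many non-constant `x ∈ K(t)` such that for no
place `t = c` the reduction of `x` has portrait `(1, 1)` for the reduction `z ^ 2 + c` of `z ^ 2 + t`. -/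
theorem result (K : Type*) [Field K] : {x : RatFunc K | Exceptional x 1 1 2}.Infinite := by
  have hinj : Function.Injective (fun k : ℕ => (xk (k + 1) : RatFunc K)) := by
    intro j k h
    rcases lt_trichotomy j k with h1 | h1 | h1
    · exact absurd h (xk_aux _ _ (by omega))
    · exact h1
    · exact absurd h.symm (xk_aux _ _ (by omega))
  exact Set.infinite_of_injective_forall_mem hinj (fun k => xk_exceptional (k + 1) (by omega))

end Pool.Agent.Results.MP_13ba09_nt.InfinitelyMany
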